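import Mathlib
import Pool.Agent.H567Z.MinMain

set_option autoImplicit false

namespace Pool.Agent.Results.MP_55ec57_gt.CompactLie

open Pool.Agent.H567Z
open scoped Manifold ContDiff

universe u

/-- Every countably compact minimal Hausdorff topological group with property Z is a compact
real-analytic Lie group. -/
theorem result (G : Type u) [Group G] [TopologicalSpace G] [IsTopologicalGroup G] [T2Space G]
    [CountablyCompactSpace G] (hmin : IsMinimalGroup G) (hZ : HasPropertyZ G) :
    CompactSpace G ∧
      ∃ (n : ℕ) (_ : ChartedSpace (EuclideanSpace ℝ (Fin n)) G), LieGroup (𝓡 n) ω G :=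
  main_lie G hmin hZ

end Pool.Agent.Results.MP_55ec57_gt.CompactLie
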